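import Pool.Agent.Helper735_BDH.Thm

set_option autoImplicit false

/-!
# The theorem of Barban, Davenport and Halberstam for the primes `|n² + a|`, for almost all `a`

For all but at most `X / (log X)^A` of the integers `a`, `|a| ≤ X`, the primes `|n² + a|`, `n ≤ √X`, are distributed
among the residue classes `n ≡ r (mod q)` with `gcd(r² + a, q) = 1` as the constant `h_a` of Hardy and Littlewood
predicts, in mean square over **all** these classes to **all** moduli `q ≤ Q`, where `Q` may be as large as
`√X exp(-B (log log X)²)`; in each class the number of the terms may be chosen freely (so that the worst initial segment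
of each progression is included).

Proof. The second moment over `a` and over all classes to all moduli `q ≤ Q`, `Q ≤ √X / (log X)^B`, of the difference
between the primes and their sieve model `Λ_z` (the normalised indicator function of the integers without prime factors
`≤ z = (log X)^E`): a pair `n ≠ n'` lies in a common class for at most `d(|n - n'|)` moduli, and `n² - n'²` has at most
`d(|n² - n'²|)` representations, so that the second moment is bounded by the diagonal terms and by the correlations of
`Λ - Λ_z` weighted with powers of the divisor function; by Cauchy's inequality and the bound for the Fourier transform of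
`Λ - Λ_z` (Vinogradov; Siegel and Walfisz) they are small. The sum of the model over a class is computed by the
fundamental lemma of the sieve. The product over the primes `≤ z` is compared with the convergent product `h_a` by means
of the theorem of `FullConstantInClasses` for the modulus `1`.
-/

namespace Pool.Agent.Results.MP_391708_nt.BarbanDavenportHalberstam

open Finset Filter Topology

/-- The product which defines `h_a`, over the odd primes `w ≤ z` (`jacobiSym (-a) w` is the Legendre symbol). -/
noncomputable def product (a : ℤ) (z : ℕ) : ℝ :=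
  ∏ w ∈ (Icc 3 z).filter Nat.Prime, (1 - (jacobiSym (-a) w : ℝ) / ((w : ℝ) - 1))

/-- `H = h_a`: the product over the odd primes, in increasing order, converges to `H`. -/
def IsConstant (a : ℤ) (H : ℝ) : Prop := Tendsto (product a) atTop (𝓝 H)

/-- The residue classes `r` modulo `q` with `gcd(r² + a, q) = 1`. -/
def classes (a : ℤ) (q : ℕ) : Finset ℕ :=
  (range q).filter (fun r : ℕ => Int.gcd ((r : ℤ) ^ 2 + a) q = 1)

/-- The sum of `log |n² + a|` over the `n`, `1 ≤ n ≤ y`, `n ≡ r (mod q)`, for which `|n² + a|` is prime. -/
noncomputable def theta (a : ℤ) (q r y : ℕ) : ℝ :=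
  ∑ n ∈ (Icc 1 y).filter (fun n => n ≡ r [MOD q]),
    if ((n : ℤ) ^ 2 + a).natAbs.Prime then Real.log (((n : ℤ) ^ 2 + a).natAbs : ℝ) else 0

/-- The conclusion for one integer `a`: the product `h_a` converges to a positive number `H`, and for all
`Q ≤ √X exp(-B (log log X)²)` and all `y(q, r) ≤ √X` the sum of the squares of the errors in all the classes `r` with
`gcd(r² + a, q) = 1` to all the moduli `q ≤ Q` is at most `H² X / (log X)^A`. -/
def Good (A B X : ℕ) (a : ℤ) : Prop :=
  ∃ H : ℝ, 0 < H ∧ IsConstant a H ∧
    ∀ Q : ℕ, (Q : ℝ) ≤ Real.sqrt X * Real.exp (-(B * Real.log (Real.log X) ^ 2)) →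
      ∀ y : ℕ → ℕ → ℕ, (∀ q r, y q r ^ 2 ≤ X) →
        ∑ q ∈ Icc 1 Q, ∑ r ∈ classes a q, (theta a q r (y q r) - H * y q r / (classes a q).card) ^ 2 ≤
          H ^ 2 * X / Real.log X ^ A

open Classical in
/-- The number of the integers `a`, `|a| ≤ X`, for which the conclusion fails. -/
noncomputable def exceptions (A B X : ℕ) : ℕ :=
  ((Icc (-(X : ℤ)) X).filter (fun a : ℤ => ¬ Good A B X a)).card

theorem result (A : ℕ) : ∃ B X₀ : ℕ, ∀ X : ℕ, X₀ ≤ X → (exceptions A B X : ℝ) ≤ X / Real.log X ^ A := by
  classical
  obtain ⟨B, X₀, h⟩ := Pool.Agent.Helper735_BDH.thm A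
  refine ⟨B, X₀, fun X hX => ?_⟩
  refine le_trans (le_of_eq ?_) (h X hX)
  unfold exceptions
  have hc : ∀ (a : ℤ) (q : ℕ), Pool.Agent.Helper735_BDH.red (-a) q = classes a q := by
    intro a q
    unfold Pool.Agent.Helper735_BDH.red classes
    apply filter_congr
    intro r _
    rw [sub_neg_eq_add]
  have hcc : ∀ (a : ℤ) (q : ℕ), (Pool.Agent.Helper735_BDH.ph (-a) q : ℝ) = ((classes a q).card : ℝ) := by
    intro a q
    rw [← Pool.Agent.Helper735_BDH.red_card, hc]
  have ht : ∀ (a : ℤ) (q r y : ℕ), Pool.Agent.Helper735_BDH.thK (-a) y q r = theta a q r y := by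
    intro a q r y
    unfold Pool.Agent.Helper735_BDH.thK theta
    refine sum_congr rfl fun n _ => ?_
    unfold Pool.Agent.R460.SQ.thp
    rw [sub_neg_eq_add]
  have hg : ∀ a : ℤ, Pool.Agent.Helper735_BDH.GoodK A B X a ↔ Good A B X a := by
    intro a
    unfold Pool.Agent.Helper735_BDH.GoodK Good
    refine exists_congr fun H => and_congr Iff.rfl (and_congr Iff.rfl ?_)
    refine forall₄_congr fun Q _ y _ => ?_
    have e : ∑ q ∈ Icc 1 Q, ∑ r ∈ Pool.Agent.Helper735_BDH.red (-a) q,
        (Pool.Agent.Helper735_BDH.thK (-a) (y q r) q r - H / Pool.Agent.Helper735_BDH.ph (-a) q * y q r) ^ 2 =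
        ∑ q ∈ Icc 1 Q, ∑ r ∈ classes a q, (theta a q r (y q r) - H * y q r / (classes a q).card) ^ 2 := by
      refine sum_congr rfl fun q _ => ?_
      rw [hc]
      refine sum_congr rfl fun r _ => ?_
      rw [ht, hcc]
      congr 2
      ring
    rw [e]
  congr 2
  ext a
  rw [mem_filter, mem_filter, hg]

end Pool.Agent.Results.MP_391708_nt.BarbanDavenportHalberstam
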