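import Pool.Agent.H578.Gen.UniS

set_option autoImplicit false

/-!
# Almost primes `n ^ 2 + a` without divisors in prescribed windows, in almost all short intervals

If `|n ^ 2 + a|` is a prime then it has no proper divisor.  We prove, for every integer `a` such that
`-a` is not a square: for every finite family of windows `[y, z]`, which may depend on `X`, of total
logarithmic length `∑ (1 + log (z / y)) = σ log X`, all but a proportion `C σ` of the intervals
`(N, N + X ^ h]` with `N ≤ X` contain `≫ X ^ h / log X` integers `n` such that `n ^ 2 + a` has at most `m`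
prime factors, all of them at least `X ^ ζ`, and no proper divisor in any of the windows.  Here `m = 5` for
every `h > 0`, `m = 4` for `h > 19 / 250`, `m = 3` for `h > 9 / 20`, with `ζ` up to `(1 + h) / 5`
respectively `(1 + h) / 8`, and for `m = 3` every `ζ < 1 / 2` is possible if `h > ζ + 1 / 2`.

For instance, for a small `c > 0` and a large `M`, there are `≫ X / log X` integers `n ≤ X` such that
`n ^ 2 + a` has at most three prime factors, no divisor between `X ^ (1 - c)` and `X ^ (1 + c)`, and no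
proper divisor in any of the dyadic windows `[2 ^ (M j), 2 ^ (M j + 1)]`.

A factorisation `n ^ 2 + a = d e` is a binary quadratic form `(d, 2 n, e)` of discriminant `-4 a`, so
that it comes from one of finitely many forms and a matrix `(u, v; r, s)` of determinant `1` (for `a < 0`
we use Dirichlet's approximation theorem instead of reduction theory, which gives the bounds needed).
For each form and each `u` the pairs `(v, r)` lie on the hyperbola `v r ≡ -1 (mod u)`, on which one can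
sieve by Weil's bound for Kloosterman sums.
-/

namespace Pool.Agent.Results.MP_391708_nt.DivisorFreeRanges

open Finset Filter
open scoped Classical

/-- All prime factors of `n ^ 2 + a` are at least `ρ`. -/
def Rough (a : ℤ) (ρ : ℝ) (n : ℕ) : Prop :=
  ∀ p : ℕ, p.Prime → (p : ℤ) ∣ (n : ℤ) ^ 2 + a → ρ ≤ p

/-- `n ^ 2 + a` has a divisor `d` in `[D, E]` with `1 < d < |n ^ 2 + a|`. -/
def HasDiv (a : ℤ) (n : ℕ) (D E : ℝ) : Prop :=
  ∃ d : ℕ, (d : ℤ) ∣ (n : ℤ) ^ 2 + a ∧ 1 < d ∧ d < ((n : ℤ) ^ 2 + a).natAbs ∧ D ≤ (d : ℝ) ∧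
    (d : ℝ) ≤ E

/-- `n ^ 2 + a` has at most `m` prime factors (counted with multiplicity), all of them at least
`X ^ ζ`, and no proper divisor in any of the `k` windows `[y i, z i]`. -/
def Good (a : ℤ) (m : ℕ) (ζ : ℝ) (k : ℕ) (y z : Fin k → ℝ) (X : ℕ) (n : ℕ) : Prop :=
  ((n : ℤ) ^ 2 + a).natAbs.primeFactorsList.length ≤ m ∧ Rough a ((X : ℝ) ^ ζ) n ∧
    ∀ i, ¬ HasDiv a n (y i) (z i)

/-- Let `-a` be not a square, `0 < h ≤ 1`, `0 < ζ`, and `m = 5`, `ζ < (1 + h) / 5`, or `m = 4`,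
`h > 19 / 250`, `ζ < (1 + h) / 8`, or `m = 3`, `h > 9 / 20`, `ζ < (1 + h) / 8`, or `m = 3`,
`2 / 5 ≤ ζ < h - 1 / 2`.

There are `δ, c > 0` such that for every `ε > 0`, every large `X` and every finite family of windows
`[y i, z i]` (which may depend on `X`) with `∑ (1 + log (z i / y i)) ≤ c ε log X`, all `N ≤ X` but at most
`ε X` are such that the interval `(N, N + X ^ h]` contains at least `δ X ^ h / log X` good integers.

Moreover, for a constant `C`, every large `X` and every window `[y, z]`, at most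
`C (1 + log (z / y)) X / (log X) ^ 2` of the `n ≤ X` are such that all prime factors of `n ^ 2 + a` are at
least `X ^ ζ` and `n ^ 2 + a` has a proper divisor in `[y, z]`. -/
theorem result (a : ℤ) (ha : ¬ IsSquare (-a)) (m : ℕ) (h ζ : ℝ) (hh : 0 < h) (h1 : h ≤ 1)
    (hζ : 0 < ζ)
    (hpar : (m = 5 ∧ ζ < (1 + h) / 5) ∨ (m = 4 ∧ 19 / 250 < h ∧ ζ < (1 + h) / 8) ∨
      (m = 3 ∧ 9 / 20 < h ∧ ζ < (1 + h) / 8) ∨ (m = 3 ∧ 2 / 5 ≤ ζ ∧ ζ + 1 / 2 < h)) :
    (∃ δ c : ℝ, 0 < δ ∧ 0 < c ∧ ∀ ε : ℝ, 0 < ε → ∀ᶠ X : ℕ in atTop,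
      ∀ (k : ℕ) (y z : Fin k → ℝ), (∀ i, 0 < y i ∧ y i ≤ z i) →
        ∑ i, (1 + Real.log (z i / y i)) ≤ c * ε * Real.log X →
        (((Icc 1 X).filter (fun N : ℕ =>
          (((Ioc N (N + ⌊(X : ℝ) ^ h⌋₊)).filter (Good a m ζ k y z X)).card : ℝ) <
            δ * (X : ℝ) ^ h / Real.log X)).card : ℝ) ≤ ε * X) ∧
    (∃ C : ℝ, 0 < C ∧ ∀ᶠ X : ℕ in atTop, ∀ y z : ℝ, 0 < y → y ≤ z →
      (((Icc 1 X).filter (fun n : ℕ => Rough a ((X : ℝ) ^ ζ) n ∧ HasDiv a n y z)).card : ℝ) ≤
        C * (1 + Real.log (z / y)) * X / (Real.log X) ^ 2) :=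
  ⟨Pool.Agent.H578.Gen.shortU a ha m h ζ hh h1 hζ hpar, Pool.Agent.H578.Gen.fb_le a ha ζ hζ⟩

end Pool.Agent.Results.MP_391708_nt.DivisorFreeRanges
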