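import Pool.Agent.helper24_UT.Ch14

set_option autoImplicit false

/-!
# Primes of the form `|n² + a|`, `m < n ≤ m + y`, for almost all `a ≤ X`, from `y (m + y) = X ^ (1/3 + ε)` on

Let `ε > 0` and `A` be fixed, let `X` be large and let `m ≥ 0` be an integer. For all but at most `X / (log X) ^ A` of the
integers `a`, `|a| ≤ X`, the product `h_a` over all odd primes converges to a positive number and for ALL `y` with
`m ≤ y ^ 2`, `y (m + y) ≥ X ^ (1 / 3 + ε)` and `(m + y) ^ 2 ≤ X` the sum of `log |n² + a|` over the `n`, `m < n ≤ m + y`, for which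
`|n² + a|` is prime is `h_a y (1 + O((log X) ^ (-A)))`. For `m = 0` this is the formula of Hardy and Littlewood for the first `y`
values for all `y` between `X ^ (1 / 6 + ε)` and `X ^ (1 / 2)`; the largest `m` give windows of
length `y = X ^ (1 / 9 + ε)` around `n = X ^ (2 / 9 + ε)`, with `y` about the square root of `n`.

Proof. The squares of the integers of the window lie in an interval of length `H = y (2 m + y)` and have, up to a power of the logarithm,
the smallest possible number `y ^ 6 / H` of solutions of `n₁² + n₂² + n₃² = n₄² + n₅² + n₆²`; so the correlations of the primes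
minus their sieve model along the window are bounded by the mean square of exponential sums over primes in intervals of
length `H` (`Pool.Agent.helper24_UT.Ch.t_MKT`, the method of Mikawa, `H ≥ X ^ (1 / 3 + ε)`). The full constant `h_a` is
identified by means of the starting theorem `FullConstantInClasses` at `y = √X`.
-/

namespace Pool.Agent.Results.MP_391708_nt.FewValuesInWindows

open Finset Filter Topology

/-- The product which defines `h_a`, over the odd primes `w ≤ z` (`jacobiSym (-a) w` is the Legendre symbol). -/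
noncomputable def product (a : ℤ) (z : ℕ) : ℝ :=
  ∏ w ∈ (Icc 3 z).filter Nat.Prime, (1 - (jacobiSym (-a) w : ℝ) / ((w : ℝ) - 1))

/-- `H = h_a`: the product over the odd primes, in increasing order, converges to `H`. -/
def IsConstant (a : ℤ) (H : ℝ) : Prop := Tendsto (product a) atTop (𝓝 H)

/-- The sum of `log |n² + a|` over the `n`, `m < n ≤ m + y`, for which `|n² + a|` is prime. -/
noncomputable def theta (a : ℤ) (m y : ℕ) : ℝ :=
  ∑ n ∈ Ioc m (m + y), if ((n : ℤ) ^ 2 + a).natAbs.Prime then Real.log (((n : ℤ) ^ 2 + a).natAbs : ℝ) else 0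

/-- The lengths `y` which are admitted: `√m ≤ y`, `y (m + y) ≥ X ^ (1 / 3 + ε)`, `(m + y) ^ 2 ≤ X`. -/
def Admitted (ε : ℝ) (X m y : ℕ) : Prop :=
  m ≤ y ^ 2 ∧ (X : ℝ) ^ (1 / 3 + ε) ≤ (y : ℝ) * (m + y) ∧ (m + y) ^ 2 ≤ X

/-- The conclusion for one integer `a`: the product `h_a` converges, its value `H` is positive, and for all admitted `y` the primes
`|n² + a|`, `m < n ≤ m + y`, are counted by the formula of Hardy and Littlewood with the relative error `1 / (log X) ^ A`. -/
def Good (ε : ℝ) (A X m : ℕ) (a : ℤ) : Prop :=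
  ∃ H : ℝ, 0 < H ∧ IsConstant a H ∧ ∀ y : ℕ, Admitted ε X m y → |theta a m y - H * y| ≤ H * y / Real.log X ^ A

open Classical in
/-- The number of the integers `a`, `|a| ≤ X`, for which the conclusion fails. -/
noncomputable def exceptions (ε : ℝ) (A X m : ℕ) : ℕ := ((Icc (-(X : ℤ)) X).filter (fun a : ℤ => ¬ Good ε A X m a)).card

theorem result (ε : ℝ) (hε : 0 < ε) (A : ℕ) : ∃ X₀ : ℕ, ∀ X : ℕ, X₀ ≤ X → ∀ m : ℕ,
    (exceptions ε A X m : ℝ) ≤ X / Real.log X ^ A := by
  classical
  obtain ⟨e, he⟩ := exists_nat_gt (1 / ε)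
  have he0 : (0 : ℝ) < e := lt_trans (by positivity) he
  have he1 : 1 ≤ e := by exact_mod_cast he0
  have hle : 1 / (e : ℝ) ≤ ε := by
    rw [div_le_iff₀ he0]
    rw [div_lt_iff₀ hε] at he
    linarith
  obtain ⟨X₀, h⟩ := Pool.Agent.helper24_UT.Ch.t_R24 e A he1
  refine ⟨X₀ + 1, fun X hX m => ?_⟩
  have hX1 : (1 : ℝ) ≤ X := by exact_mod_cast (by omega : 1 ≤ X)
  refine le_trans ?_ (h X (by omega) m)
  unfold exceptions
  refine Nat.cast_le.2 (card_le_card fun a ha => ?_)
  have ha := mem_filter.1 ha
  refine mem_filter.2 ⟨ha.1, fun hg => ha.2 ?_⟩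
  obtain ⟨H, h1, h2, h3⟩ := hg
  refine ⟨H, h1, h2, fun y hy => h3 y ⟨hy.1, ?_, hy.2.2⟩⟩
  exact (Real.rpow_le_rpow_of_exponent_le hX1 (by linarith)).trans hy.2.1

end Pool.Agent.Results.MP_391708_nt.FewValuesInWindows
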