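import Pool.Agent.Helper269.Pri

/-!
# Common patterns of the `n` with `n ^ 2 + a` prime, for almost all `a`

Let `P(a, X)` be the set of the `n ∈ (X ^ (1/4), X]` for which `n ^ 2 + a` is prime, and write
`E(a, X) = X ∏ (1 - ν(q) / q)` (product over the primes `q ≤ X`), where `ν(q)` is the number of the solutions of
`n ^ 2 + a ≡ 0` modulo `q`. For all but at most `C X ^ 2 / (log X) ^ U` integers `a ≤ C X ^ 2` (the exceptional ones)
the following holds, with constants independent of `C` and `U`.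
(1) `P(a, X)` has at least `δ₀ E(a, X)` elements.
(2) Arbitrary subsets `S_j ⊆ P(a_j, X)` of the relative density `δ`, for arbitrary non-exceptional `a_1, ..., a_M`,
have common difference vectors: for a positive proportion of the vectors `h ∈ {1, ..., D} ^ m` the set `S_j` contains
for every `P ⊆ {0, ..., k - 1} ^ m` with `0 ∈ P` the number of patterns `n + f · h`, `f ∈ P`, which is predicted for
`a_j`, for all `j` at once, where `D` is arbitrary with `(log X) ^ B ≤ D ≤ X`. For `m = 1`: for a positive proportion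
of the integers `d ≤ D` there are, for all `j` at once, as many progressions `n, n + d, ..., n + (k - 1) d ≤ X` as
predicted, at all whose terms the polynomial `n ^ 2 + a_j` is prime.

The proof combines the lower bound for the number of the prime values for almost all `a`
(`Pool.Agent.Y843.AQ.sg_low`) with the theorem of `Pool.Agent.X26.MC` on common patterns in sets of integers without
small prime factors, both of the starting library.
-/

set_option autoImplicit false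

namespace Pool.Agent.Results.MP_391708_nt.PatternsAlmostAll

open Filter

/-- The `n ∈ (X ^ (1 / 4), X]` for which `n ^ 2 + a` is prime. -/
def Primes (a X : ℕ) : Set ℕ := {n | (X : ℝ) ^ (1 / 4 : ℝ) < n ∧ n ≤ X ∧ (n ^ 2 + a).Prime}

/-- The integer `f · h = f 0 * h 0 + f 1 * h 1 + ...`. -/
def dot {m : ℕ} (f h : Fin m → ℕ) : ℕ := ∑ i, f i * h i

/-- The number of the residues `u` modulo `q` such that `q` divides `(u + f · h) ^ 2 + a` for some `f ∈ P`. -/
noncomputable def omega (a : ℕ) {m : ℕ} (h : Fin m → ℕ) (P : Finset (Fin m → ℕ)) (q : ℕ) : ℕ :=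
  {u : ℕ | 1 ≤ u ∧ u ≤ q ∧ ∃ f ∈ P, q ∣ (u + dot f h) ^ 2 + a}.ncard

/-- The number of the residues `u` modulo `q` such that `q` divides `u ^ 2 + a`. -/
noncomputable def nu (a q : ℕ) : ℕ := {u : ℕ | 1 ≤ u ∧ u ≤ q ∧ q ∣ u ^ 2 + a}.ncard

/-- `X` times the product of the `1 - w q / q` over the primes `q ≤ X`. -/
noncomputable def expected (w : ℕ → ℕ) (X : ℕ) : ℝ :=
  X * ∏ q ∈ (Finset.Icc 1 X).filter Nat.Prime, (1 - (w q : ℝ) / q)

/-- The number of the `n ∈ S` such that all the `n + f · h`, `f ∈ P`, are in `S`. -/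
noncomputable def count (S : Set ℕ) {m : ℕ} (h : Fin m → ℕ) (P : Finset (Fin m → ℕ)) : ℕ :=
  {n : ℕ | n ∈ S ∧ ∀ f ∈ P, n + dot f h ∈ S}.ncard

/-- For all `P ⊆ {0, ..., k - 1} ^ m` with `0 ∈ P`: the integers `f · h`, `f ∈ P`, are different, and for all `j`
the conditions modulo the primes are solvable and the set `S j` contains at least `c` times the expected number of
the patterns `n + f · h`, `f ∈ P`. -/
def Common {M m : ℕ} (a : Fin M → ℕ) (c : ℝ) (k X : ℕ) (S : Fin M → Set ℕ) (h : Fin m → ℕ) : Prop :=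
  ∀ P : Finset (Fin m → ℕ), (∀ f ∈ P, ∀ i, f i < k) → (fun _ => 0) ∈ P →
    Set.InjOn (fun f => dot f h) (P : Set (Fin m → ℕ)) ∧
      ∀ j, (∀ q : ℕ, q.Prime → omega (a j) h P q < q) ∧
        c * expected (omega (a j) h P) X ≤ (count (S j) h P : ℝ)

/-- the polynomial -/
noncomputable def F (a : ℕ) (_ : Fin 1) : Polynomial ℤ := Polynomial.X ^ 2 + Polynomial.C (a : ℤ)

/-- the relation -/
def R (a q n : ℕ) : Prop := q ∣ n ^ 2 + a

theorem F_eval (a : ℕ) (i : Fin 1) (n : ℕ) : (F a i).eval (n : ℤ) = ((n ^ 2 + a : ℕ) : ℤ) := by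
  unfold F
  simp

theorem prod_eq (a : ℕ) : ∏ i, F a i = F a 0 := by simp

theorem hR (a : ℕ) : ∀ q n : ℕ, 1 ≤ n → (R a q n ↔ ∃ i, (q : ℤ) ∣ (F a i).eval (n : ℤ)) := by
  intro q n _
  unfold R
  constructor
  · intro h
    exact ⟨0, by rw [F_eval]; exact Int.natCast_dvd_natCast.2 h⟩
  · rintro ⟨i, hi⟩
    rw [F_eval] at hi
    exact Int.natCast_dvd_natCast.1 hi

theorem deg (a : ℕ) : (∏ i, F a i).natDegree ≤ 2 := by
  rw [prod_eq]
  unfold F
  refine (Polynomial.natDegree_add_le _ _).trans (max_le ?_ (by rw [Polynomial.natDegree_C]; omega))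
  rw [Polynomial.natDegree_X_pow]

theorem nf (a : ℕ) : Pool.Agent.X26.GP.NF (∏ i, F a i) := by
  intro q hq
  rw [prod_eq]
  by_contra hcon
  push Not at hcon
  have h0 := hcon ((0 : ℕ) : ℤ)
  have h1 := hcon ((1 : ℕ) : ℤ)
  rw [F_eval, Int.natCast_dvd_natCast] at h0 h1
  have h2 : q ∣ 1 := by
    have h3 := (Nat.dvd_sub h1 h0)
    have h4 : 1 ^ 2 + a - (0 ^ 2 + a) = 1 := by omega
    rwa [h4] at h3
  exact hq.one_lt.ne' (Nat.dvd_one.1 h2)

theorem expected_eq (a X : ℕ) :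
    expected (nu a) X = X * Pool.Agent.X69.Ric.prR (Pool.Agent.Helper269.nuR (R a)) X := rfl

/-- **Common patterns for almost all `a`.** -/
theorem result : ∃ δ₀ : ℝ, 0 < δ₀ ∧ ∀ (M m k : ℕ) (δ : ℝ), 0 < δ → ∃ c : ℝ, 0 < c ∧ ∃ B : ℕ,
    ∀ C U : ℕ, 1 ≤ C → ∃ X₀ : ℕ, ∀ X : ℕ, X₀ ≤ X →
      ∃ Ex : Finset ℕ, (Ex.card : ℝ) ≤ C * X ^ 2 / Real.log X ^ U ∧
        (∀ a : ℕ, 1 ≤ a → a ≤ C * X ^ 2 → a ∉ Ex → δ₀ * expected (nu a) X ≤ ((Primes a X).ncard : ℝ)) ∧
        ∀ a : Fin M → ℕ, (∀ j, 1 ≤ a j ∧ a j ≤ C * X ^ 2 ∧ a j ∉ Ex) →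
          ∀ S : Fin M → Set ℕ, (∀ j, S j ⊆ Primes (a j) X) →
            (∀ j, δ * ((Primes (a j) X).ncard : ℝ) ≤ ((S j).ncard : ℝ)) →
            ∀ D : ℕ, Real.log X ^ B ≤ D → D ≤ X →
              c * (D : ℝ) ^ m ≤ ({h : Fin m → ℕ | (∀ i, 1 ≤ h i ∧ h i ≤ D) ∧ Common a c k X S h}.ncard : ℝ) := by
  obtain ⟨δ₀, hδ₀, h0⟩ := Pool.Agent.Helper269.pri_plus (r := 1) (fun _ => (Polynomial.X ^ 2 : Polynomial ℤ))
    (fun _ => by rw [Polynomial.natDegree_X_pow]; omega)
    (fun _ => by rw [(Polynomial.monic_X_pow 2).leadingCoeff]; exact one_pos) (fun _ n hn => by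
      rw [Polynomial.eval_pow, Polynomial.eval_X]
      have h1 : (1 : ℤ) ≤ n := by exact_mod_cast hn
      nlinarith)
  refine ⟨δ₀, hδ₀, fun M m k δ hδ => ?_⟩
  obtain ⟨c, hc, B, X₁, h⟩ := Pool.Agent.Helper269.uni_common (g := 1) M m k 2 (1 / 4) (δ * δ₀) (by norm_num)
    (by norm_num) (by positivity)
  refine ⟨c, hc, B, fun C U hC => ?_⟩
  obtain ⟨N0, h1⟩ := h0 C hC U
  refine ⟨max N0 X₁, fun X hX => ?_⟩
  obtain ⟨E, hE, h2⟩ := h1 X ((le_max_left _ _).trans hX) (fun _ => C * X ^ 2) (fun _ => by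
    rw [Polynomial.natDegree_X_pow]
    refine ⟨le_rfl, ?_⟩
    calc X ^ 2 = 1 * (1 * X ^ 2) := by ring
      _ ≤ C * (C * X ^ 2) := Nat.mul_le_mul hC (Nat.mul_le_mul_right _ hC))
  have hlow : ∀ a : ℕ, 1 ≤ a → a ≤ C * X ^ 2 → a ∉ E.image (fun k => k 0) →
      δ₀ * expected (nu a) X ≤ ((Primes a X).ncard : ℝ) := by
    intro a ha1 ha2 ha3
    have h3 := h2 (fun _ => a) (fun _ => ⟨ha1, ha2⟩) (fun hmem => ha3 (Finset.mem_image.2 ⟨_, hmem, rfl⟩)) (nf a)
    have e1 : (fun q n : ℕ => ∃ _i : Fin 1, (q : ℤ) ∣ (Polynomial.X ^ 2 : Polynomial ℤ).eval (n : ℤ) + ((a : ℕ) : ℤ)) =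
        R a := by
      funext q n
      unfold R
      rw [eq_iff_iff, Polynomial.eval_pow, Polynomial.eval_X]
      have e2 : (n : ℤ) ^ 2 + (a : ℤ) = ((n ^ 2 + a : ℕ) : ℤ) := by push_cast; ring
      rw [e2, Int.natCast_dvd_natCast]
      exact ⟨fun ⟨_, h⟩ => h, fun h => ⟨0, h⟩⟩
    rw [e1, ← expected_eq] at h3
    refine h3.trans (Nat.cast_le.2 ?_)
    apply Set.ncard_le_ncard _ ((Set.finite_Iic X).subset fun n hn => hn.2.1)
    rintro n ⟨⟨h4, h5⟩, h6, h7⟩
    refine ⟨h6, by omega, ?_⟩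
    have h8 := h7 0
    rw [Polynomial.eval_pow, Polynomial.eval_X] at h8
    have e2 : ((n : ℤ) ^ 2 + ((a : ℕ) : ℤ)).toNat = n ^ 2 + a := by
      have e3 : (n : ℤ) ^ 2 + (a : ℤ) = ((n ^ 2 + a : ℕ) : ℤ) := by push_cast; ring
      rw [e3, Int.toNat_natCast]
    rwa [e2] at h8
  refine ⟨E.image (fun k => k 0), ?_, hlow, fun a ha S hS hSc D hBD hDX => ?_⟩
  · calc ((E.image (fun k => k 0)).card : ℝ) ≤ E.card := by exact_mod_cast Finset.card_image_le
      _ ≤ (∏ _i : Fin 1, ((C * X ^ 2 : ℕ) : ℝ)) / Real.log X ^ U := hE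
      _ = _ := by
          rw [Finset.prod_const, Finset.card_univ, Fintype.card_fin, pow_one]
          push_cast
          ring
  · have h3 := h X D ((le_max_right _ _).trans hX) hBD hDX (fun j => F (a j)) (fun j => R (a j))
      (fun j => deg (a j)) (fun j => nf (a j)) (fun j => hR (a j)) (fun _ => 0) S (fun j n hn => by
        obtain ⟨h4, h5, h6⟩ := hS j hn
        refine ⟨?_, by omega⟩
        have h7 : (0 : ℝ) ≤ (X : ℝ) ^ (1 / 4 : ℝ) := by positivity
        exact_mod_cast (lt_of_le_of_lt h7 h4)) (fun j n hn q hq hd => by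
        obtain ⟨h4, h5, h6⟩ := hS j hn
        have h7 : q = n ^ 2 + a j := (Nat.prime_dvd_prime_iff_eq hq h6).1 hd
        refine lt_of_lt_of_le h4 ?_
        rw [h7]
        have h8 : n ≤ n ^ 2 := Nat.le_self_pow two_ne_zero n
        exact_mod_cast (by omega : n ≤ n ^ 2 + a j)) (fun j => by
        rw [← expected_eq]
        obtain ⟨h4, h5, h6⟩ := ha j
        calc δ * δ₀ * expected (nu (a j)) X = δ * (δ₀ * expected (nu (a j)) X) := by ring
          _ ≤ δ * ((Primes (a j) X).ncard : ℝ) := mul_le_mul_of_nonneg_left (hlow _ h4 h5 h6) hδ.le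
          _ ≤ _ := hSc j)
    exact h3

end Pool.Agent.Results.MP_391708_nt.PatternsAlmostAll
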